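import Pool.Agent.Lib.MP_cdd7b4_an.MX.H87.LtBase

set_option autoImplicit false

/-! # LT: an approximate eigenvector generates `ℓ_(1/r)^m` -/

namespace Pool.Agent.Lib.MP_cdd7b4_an.MX.H87

open scoped BigOperators

variable {F : (ℕ →₀ ℝ) → ℝ} {W : ℕ →₀ ℝ}

theorem exists_equiv {ι κ : Type} [Fintype ι] [Fintype κ] (a : ι → ℝ) (b : κ → ℝ)
    (h : Finset.univ.val.map a = Finset.univ.val.map b) : ∃ σ : ι ≃ κ, a = b ∘ σ := by
  classical
  have hcard : ∀ y : ℝ, Fintype.card {x // a x = y} = Fintype.card {x // b x = y} := by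
    intro y
    have h1 := congrArg (Multiset.count y) h
    rw [Multiset.count_map, Multiset.count_map] at h1
    rw [Fintype.card_subtype, Fintype.card_subtype]
    have h2 : ∀ {ι : Type} [Fintype ι] (a : ι → ℝ), (Finset.univ.filter fun x => a x = y).card =
        (Multiset.filter (fun x => y = a x) Finset.univ.val).card := by
      intro ι _ a
      rw [Finset.card_def, Finset.filter_val]
      congr 1
      exact Multiset.filter_congr fun x _ => eq_comm
    rw [h2, h2, h1]
  let e : ∀ y : ℝ, {x // a x = y} ≃ {x // b x = y} := fun y => Fintype.equivOfCardEq (hcard y)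
  refine ⟨(Equiv.sigmaFiberEquiv a).symm.trans
    ((Equiv.sigmaCongrRight e).trans (Equiv.sigmaFiberEquiv b)), ?_⟩
  funext x
  exact ((e (a x) ⟨x, rfl⟩).2).symm

/-- The norm as a function of the multiset of the coefficients. -/
noncomputable def Ps (F : (ℕ →₀ ℝ) → ℝ) (W : ℕ →₀ ℝ) (s : Multiset ℝ) : ℝ :=
  NN F W (fun i : Fin s.toList.length => s.toList.get i)

theorem val_get (s : Multiset ℝ) :
    Finset.univ.val.map (fun i : Fin s.toList.length => s.toList.get i) = s := by
  rw [Fin.univ_val_map, List.ofFn_get, Multiset.coe_toList]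

theorem NN_eq (hF : SymF F) {ι : Type} [Fintype ι] (a : ι → ℝ) :
    NN F W a = Ps F W (Finset.univ.val.map a) := by
  obtain ⟨σ, hσ⟩ := exists_equiv a
    (fun i : Fin (Finset.univ.val.map a).toList.length => (Finset.univ.val.map a).toList.get i)
    (val_get _).symm
  unfold Ps
  rw [← NN_congr hF σ, ← hσ]

theorem val_sum {ι κ : Type} [Fintype ι] [Fintype κ] (a : ι → ℝ) (b : κ → ℝ) :
    Finset.univ.val.map (Sum.elim a b) = Finset.univ.val.map a + Finset.univ.val.map b := by
  rw [← Finset.univ_disjSum_univ, Finset.val_disjSum, Multiset.disjSum, Multiset.map_add,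
    Multiset.map_map, Multiset.map_map]
  rfl

theorem Ps_le_add (hF : SymF F) (s t : Multiset ℝ) : Ps F W s ≤ Ps F W (s + t) := by
  have h := NN_le_sum (W := W) hF (fun i : Fin s.toList.length => s.toList.get i)
    (fun i : Fin t.toList.length => t.toList.get i)
  rwa [NN_eq hF, NN_eq hF (Sum.elim _ _), val_sum, val_get, val_get] at h

theorem Ps_add_le (hF : SymF F) (s t : Multiset ℝ) :
    Ps F W (s + t) ≤ Ps F W s + Ps F W t := by
  have h := NN_sum_le (W := W) hF (fun i : Fin s.toList.length => s.toList.get i)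
    (fun i : Fin t.toList.length => t.toList.get i)
  rwa [NN_eq hF, val_sum, val_get, val_get] at h

theorem Ps_single (hF : SymF F) (c : ℝ) : Ps F W (c ::ₘ 0) = |c| * F W := by
  rw [← NN_one hF c, NN_eq hF]
  congr 1

theorem Ps_double (hF : SymF F) (r c : ℝ) (t : Multiset ℝ) :
    |Ps F W (((2 : ℝ) ^ r * c) ::ₘ t) - Ps F W (c ::ₘ c ::ₘ t)| ≤
      |c| * F (dil W - (2 : ℝ) ^ r • W) := by
  have h := NN_double (W := W) hF r c (fun i : Fin t.toList.length => t.toList.get i)
  rw [NN_eq hF, NN_eq hF, val_sum, val_sum, val_get] at h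
  have e1 : Multiset.map (fun _ : Unit => (2 : ℝ) ^ r * c) Finset.univ.val =
      ((2 : ℝ) ^ r * c) ::ₘ 0 := rfl
  have e2 : Multiset.map (fun _ : Fin 2 => c) Finset.univ.val = c ::ₘ c ::ₘ 0 := rfl
  rwa [e1, e2, Multiset.cons_add, Multiset.cons_add, Multiset.cons_add, zero_add] at h

theorem Ps_copies (hF : SymF F) (r : ℝ) (hr : 0 ≤ r) (hr1 : r ≤ 1) (s : ℕ) :
    ∀ (c : ℝ) (t : Multiset ℝ),
      |Ps F W ((((2 : ℝ) ^ r) ^ s * c) ::ₘ t) - Ps F W (Multiset.replicate (2 ^ s) c + t)| ≤
        4 ^ s * (|c| * F (dil W - (2 : ℝ) ^ r • W)) := by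
  have hR1 : (1 : ℝ) ≤ (2 : ℝ) ^ r := Real.one_le_rpow (by norm_num) hr
  have hR2 : (2 : ℝ) ^ r ≤ 2 := by
    calc (2 : ℝ) ^ r ≤ 2 ^ (1 : ℝ) := Real.rpow_le_rpow_of_exponent_le (by norm_num) hr1
      _ = 2 := Real.rpow_one 2
  induction s with
  | zero =>
    intro c t
    have h0 := F_nonneg hF (dil W - (2 : ℝ) ^ r • W)
    simp only [pow_zero, one_mul]
    have : Multiset.replicate 1 c + t = c ::ₘ t := by
      rw [Multiset.replicate_one, Multiset.singleton_add]
    rw [this, sub_self, abs_zero]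
    positivity
  | succ s ih =>
    intro c t
    set R : ℝ := (2 : ℝ) ^ r with hR
    set δ := F (dil W - R • W) with hδ
    have hδ0 : 0 ≤ δ := F_nonneg hF _
    have h1 := Ps_double (W := W) hF r (R ^ s * c) t
    rw [← hR, ← hδ, ← mul_assoc, ← pow_succ'] at h1
    have h2 := ih c ((R ^ s * c) ::ₘ t)
    rw [Multiset.add_cons] at h2
    have h3 := ih c (Multiset.replicate (2 ^ s) c + t)
    rw [← add_assoc, ← Multiset.replicate_add, ← two_mul, ← pow_succ'] at h3
    have habs : |R ^ s * c| ≤ 2 ^ s * |c| := by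
      rw [abs_mul, abs_of_nonneg (by positivity)]
      exact mul_le_mul_of_nonneg_right (pow_le_pow_left₀ (by positivity) hR2 s) (abs_nonneg _)
    have h4 : |R ^ s * c| * δ ≤ 2 ^ s * (|c| * δ) := by
      rw [← mul_assoc]
      exact mul_le_mul_of_nonneg_right habs hδ0
    have h5 : (2 : ℝ) ^ s ≤ 4 ^ s := pow_le_pow_left₀ (by norm_num) (by norm_num) s
    have h6 : 0 ≤ |c| * δ := mul_nonneg (abs_nonneg _) hδ0
    have h7 : (2 : ℝ) ^ s * (|c| * δ) ≤ 4 ^ s * (|c| * δ) := mul_le_mul_of_nonneg_right h5 h6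
    have h8 : (0 : ℝ) ≤ 4 ^ s * (|c| * δ) := mul_nonneg (by positivity) h6
    rw [pow_succ (4 : ℝ) s]
    rw [abs_le] at h1 h2 h3 ⊢
    constructor <;> nlinarith

theorem Ps_multi (hF : SymF F) (r : ℝ) (hr : 0 ≤ r) (hr1 : r ≤ 1) {ι : Type} (w : ℝ)
    (hw : 0 ≤ w) (q : ℕ) (κ : ι → ℕ) (s : Finset ι) :
    (∀ i ∈ s, κ i ≤ q) → ∀ t : Multiset ℝ,
      |Ps F W (s.val.map (fun i => w * (2 : ℝ) ^ (-(r * κ i))) + t) -
        Ps F W (Multiset.replicate (∑ i ∈ s, 2 ^ (q - κ i)) (w * (2 : ℝ) ^ (-(r * q))) + t)| ≤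
        s.card * (4 ^ q * (w * F (dil W - (2 : ℝ) ^ r • W))) := by
  classical
  have hδ0 : 0 ≤ F (dil W - (2 : ℝ) ^ r • W) := F_nonneg hF _
  induction s using Finset.induction_on with
  | empty =>
    intro _ t
    simp
  | insert a s ha ih =>
    intro hκ t
    have ih' := ih (fun i hi => hκ i (Finset.mem_insert_of_mem hi))
      ((w * (2 : ℝ) ^ (-(r * κ a))) ::ₘ t)
    rw [Multiset.add_cons, Multiset.add_cons] at ih'
    have hκa := hκ a (Finset.mem_insert_self a s)
    have h1 := Ps_copies (W := W) hF r hr hr1 (q - κ a) (w * (2 : ℝ) ^ (-(r * q)))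
      (Multiset.replicate (∑ i ∈ s, 2 ^ (q - κ i)) (w * (2 : ℝ) ^ (-(r * q))) + t)
    have hconv : ((2 : ℝ) ^ r) ^ (q - κ a) * (w * (2 : ℝ) ^ (-(r * q))) =
        w * (2 : ℝ) ^ (-(r * κ a)) := by
      rw [← Real.rpow_natCast, ← Real.rpow_mul (by norm_num), Nat.cast_sub hκa, mul_left_comm,
        ← Real.rpow_add (by norm_num)]
      congr 2
      ring
    rw [hconv, ← add_assoc, ← Multiset.replicate_add] at h1
    rw [Finset.insert_val_of_notMem ha, Multiset.map_cons, Multiset.cons_add,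
      Finset.sum_insert ha, Finset.card_insert_of_notMem ha]
    have hc0 : |w * (2 : ℝ) ^ (-(r * q))| ≤ w := by
      rw [abs_of_nonneg (by positivity)]
      have : (2 : ℝ) ^ (-(r * q)) ≤ 1 :=
        Real.rpow_le_one_of_one_le_of_nonpos (by norm_num) (by
          have : 0 ≤ r * q := by positivity
          linarith)
      nlinarith
    have h4 : (4 : ℝ) ^ (q - κ a) ≤ 4 ^ q := pow_le_pow_right₀ (by norm_num) (Nat.sub_le _ _)
    have h5 : (4 : ℝ) ^ (q - κ a) * (|w * (2 : ℝ) ^ (-(r * q))| *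
        F (dil W - (2 : ℝ) ^ r • W)) ≤ 4 ^ q * (w * F (dil W - (2 : ℝ) ^ r • W)) :=
      mul_le_mul h4 (mul_le_mul_of_nonneg_right hc0 hδ0)
        (mul_nonneg (abs_nonneg _) hδ0) (by positivity)
    push_cast
    rw [abs_le] at h1 ih' ⊢
    constructor <;> linarith

theorem Ps_replicate_mono (hF : SymF F) (c : ℝ) {n n' : ℕ} (h : n ≤ n') :
    Ps F W (Multiset.replicate n c) ≤ Ps F W (Multiset.replicate n' c) := by
  obtain ⟨k, rfl⟩ := Nat.exists_eq_add_of_le h
  rw [Multiset.replicate_add]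
  exact Ps_le_add hF _ _

theorem Ps_replicate_four (hF : SymF F) (c : ℝ) (n : ℕ) :
    Ps F W (Multiset.replicate (4 * n) c) ≤ 4 * Ps F W (Multiset.replicate n c) := by
  have h2 : ∀ k, Ps F W (Multiset.replicate (k + k) c) ≤
      2 * Ps F W (Multiset.replicate k c) := by
    intro k
    rw [Multiset.replicate_add, two_mul]
    exact Ps_add_le hF _ _
  have h3 := h2 (n + n)
  have h4 := h2 n
  rw [show 4 * n = n + n + (n + n) by ring]
  linarith

theorem Ps_nonneg (hF : SymF F) (s : Multiset ℝ) : 0 ≤ Ps F W s := NN_nonneg hF _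

theorem Ps_subset (hF : SymF F) {m : ℕ} (b f : Fin m → ℝ) (hf : ∀ l, 0 ≤ f l)
    (L : Finset (Fin m)) (hL : ∀ l ∈ L, f l ≤ b l) : Ps F W (L.val.map f) ≤ NN F W b := by
  classical
  have h1 : Ps F W (L.val.map f) ≤ Ps F W (L.val.map b) := by
    have h := NN_mono (W := W) hF (fun l : L => f l) (fun l : L => b l) (fun l => by
      rw [abs_of_nonneg (hf l), abs_of_nonneg ((hf l).trans (hL l l.2))]
      exact hL l l.2)
    have hv : ∀ g : Fin m → ℝ, Finset.univ.val.map (fun l : L => g l) = L.val.map g := by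
      intro g
      rw [Finset.univ_eq_attach, Finset.attach_val]
      exact Multiset.attach_map_val' L.val g
    rwa [NN_eq hF, NN_eq hF, hv, hv] at h
  refine h1.trans ?_
  rw [NN_eq hF b]
  have h2 : (Finset.univ : Finset (Fin m)).val.map b =
      L.val.map b + (Multiset.filter (fun l => l ∉ L) Finset.univ.val).map b := by
    conv_lhs => rw [← Multiset.filter_add_not (fun l => l ∈ L) (Finset.univ : Finset (Fin m)).val]
    rw [Multiset.map_add, ← Finset.filter_val]
    congr 3
    ext l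
    simp
  rw [h2]
  exact Ps_le_add hF _ _

theorem lt (h : RoundStatement) : LtStatement := by
  intro m hm
  obtain ⟨q, hq2, hq⟩ := h m hm
  have hm' : (1 : ℝ) ≤ m := by exact_mod_cast hm
  have hmq : m ≤ 2 ^ (Nat.clog 2 m) := Nat.le_pow_clog (by norm_num) m
  set Q := q + Nat.clog 2 m with hQ
  set c : ℝ := 1 / (2 * (4 * m + 4) * 4 ^ Q) with hc
  have hc0 : 0 < c := by positivity
  have hcQ : (4 * m + 4) * 4 ^ Q * c = 1 / 2 := by
    rw [hc]
    field_simp
  have h4Q : (4 : ℝ) ^ q ≤ 4 ^ Q := pow_le_pow_right₀ (by norm_num) (by omega)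
  have h4Q' : (4 : ℝ) ^ (Nat.clog 2 m) ≤ 4 ^ Q := pow_le_pow_right₀ (by norm_num) (by omega)
  refine ⟨c, hc0, ?_⟩
  intro F hF r hr hr1 W _ hδ b hb
  rw [NN_cop hF]
  set δ := F (dil W - (2 : ℝ) ^ r • W) with hδdef
  have hδ0 : 0 ≤ δ := F_nonneg hF _
  have hFW : 0 ≤ F W := F_nonneg hF W
  have hNb : 0 ≤ NN F W b := NN_nonneg hF b
  rcases hr.eq_or_lt with h0 | h0
  · -- the case `r = 0`
    rw [nr, if_pos h0.symm]
    have : Nonempty (Fin m) := ⟨⟨0, hm⟩⟩
    obtain ⟨j0, hj0⟩ := exists_eq_ciSup_of_finite (f := fun j => |b j|)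
    set M := ⨆ j, |b j| with hM
    have hM0 : 0 ≤ M := by rw [← hj0]; exact abs_nonneg _
    have hle : ∀ j, |b j| ≤ M := fun j =>
      le_ciSup (f := fun j => |b j|) (Set.finite_range _).bddAbove j
    constructor
    · have h1 : Ps F W (({j0} : Finset (Fin m)).val.map b) ≤ NN F W b :=
        Ps_subset hF b b hb {j0} (fun l _ => le_rfl)
      have h2 : ({j0} : Finset (Fin m)).val.map b = b j0 ::ₘ 0 := by
        rw [Finset.singleton_val, Multiset.map_singleton]
        rfl
      rw [h2, Ps_single hF, hj0] at h1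
      linarith
    · have h1 : NN F W b ≤ NN F W (fun _ : Fin m => M) :=
        NN_mono hF _ _ fun j => by rw [abs_of_nonneg hM0]; exact hle j
      have h2 : NN F W (fun _ : Fin m => M) = Ps F W (Multiset.replicate m M) := by
        rw [NN_eq hF]
        congr 1
        rw [Multiset.map_const']
        congr 1
        rw [← Finset.card_def, Finset.card_univ, Fintype.card_fin]
      have h3 := Ps_replicate_mono (W := W) hF M hmq
      have h4 := Ps_copies (W := W) hF r hr hr1 (Nat.clog 2 m) M 0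
      rw [← h0, Real.rpow_zero, one_pow, one_mul, Ps_single hF, add_zero,
        abs_of_nonneg hM0] at h4
      rw [← h0, Real.rpow_zero] at hδdef
      rw [← hδdef] at h4
      have h5 : (4 : ℝ) ^ (Nat.clog 2 m) * (M * δ) ≤ M * F W := by
        calc (4 : ℝ) ^ (Nat.clog 2 m) * (M * δ) ≤ 4 ^ Q * (M * (c * F W)) := by gcongr
          _ = (4 ^ Q * c) * (M * F W) := by ring
          _ ≤ 1 * (M * F W) := by
              apply mul_le_mul_of_nonneg_right _ (mul_nonneg hM0 hFW)
              have : 0 < 4 ^ Q * c := by positivity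
              nlinarith
          _ = M * F W := one_mul _
      rw [abs_le] at h4
      have h6 : 0 ≤ M * F W := mul_nonneg hM0 hFW
      linarith
  · -- the case `r > 0`
    rw [nr, if_neg h0.ne']
    obtain ⟨⟨κ, hκ, hκs⟩, κ', L, hL, hLs⟩ := hq r h0 hr1 b hb
    set w := lpn (1 / r) b with hw
    have hw0 : 0 ≤ w := by
      rw [hw]
      unfold lpn
      exact Real.rpow_nonneg (Finset.sum_nonneg fun i _ => Real.rpow_nonneg (abs_nonneg _) _) _
    set c0 := w * (2 : ℝ) ^ (-(r * q)) with hc0'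
    have hc0w : |c0| ≤ w := by
      rw [abs_of_nonneg (by positivity)]
      have : (2 : ℝ) ^ (-(r * q)) ≤ 1 :=
        Real.rpow_le_one_of_one_le_of_nonpos (by norm_num) (by
          have : 0 ≤ r * q := by positivity
          linarith)
      rw [hc0']
      nlinarith
    have hR : ((2 : ℝ) ^ r) ^ q * c0 = w := by
      rw [hc0', ← Real.rpow_natCast, ← Real.rpow_mul (by norm_num), mul_left_comm,
        ← Real.rpow_add (by norm_num)]
      simp
    have hone := Ps_copies (W := W) hF r hr hr1 q c0 0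
    rw [hR, Ps_single hF, add_zero, abs_of_nonneg hw0, ← hδdef] at hone
    have hwF : 0 ≤ w * F W := mul_nonneg hw0 hFW
    have hwδ : 0 ≤ w * δ := mul_nonneg hw0 hδ0
    have hE : (4 : ℝ) ^ q * (w * δ) ≤ 4 ^ Q * (c * (w * F W)) := by
      calc (4 : ℝ) ^ q * (w * δ) ≤ 4 ^ Q * (w * (c * F W)) := by gcongr
        _ = 4 ^ Q * (c * (w * F W)) := by ring
    have hone' : (4 : ℝ) ^ q * (|c0| * δ) ≤ 4 ^ Q * (c * (w * F W)) :=
      le_trans (by gcongr) hE
    set E := (4 : ℝ) ^ Q * (c * (w * F W)) with hEdef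
    have hE0 : 0 ≤ E := by positivity
    have hEm : (4 * m + 4) * E = 1 / 2 * (w * F W) := by
      rw [hEdef, ← hcQ]
      ring
    constructor
    · -- lower estimate
      have h1 := Ps_multi (W := W) hF r hr hr1 w hw0 q κ' L (fun i hi => (hL i hi).1) 0
      rw [add_zero, add_zero, ← hδdef, ← hc0'] at h1
      have h2 := Ps_subset (W := W) hF b (fun i => w * (2 : ℝ) ^ (-(r * κ' i)))
        (fun l => by positivity) L (fun l hl => (hL l hl).2)
      have h3 := Ps_replicate_mono (W := W) hF c0 hLs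
      have h4 := Ps_replicate_four (W := W) hF c0 (2 ^ (q - 2))
      have h5 : 4 * 2 ^ (q - 2) = 2 ^ q := by
        rw [show (4 : ℕ) = 2 ^ 2 by norm_num, ← pow_add]
        congr 1
        omega
      rw [h5] at h4
      have h6 : (L.card : ℝ) * (4 ^ q * (w * δ)) ≤ m * E := by
        have hLc : (L.card : ℝ) ≤ m := by
          have := Finset.card_le_univ L
          rw [Fintype.card_fin] at this
          exact_mod_cast this
        exact mul_le_mul hLc hE (by positivity) (by positivity)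
      rw [abs_le] at h1 hone
      nlinarith
    · -- upper estimate
      have h1 : NN F W b ≤ NN F W (fun i => w * (2 : ℝ) ^ (-(r * κ i))) :=
        NN_mono hF _ _ fun l => by
          rw [abs_of_nonneg (hb l), abs_of_nonneg (by positivity)]
          exact (hκ l).2
      rw [NN_eq hF (fun i => w * (2 : ℝ) ^ (-(r * κ i)))] at h1
      have h2 := Ps_multi (W := W) hF r hr hr1 w hw0 q κ Finset.univ (fun i _ => (hκ i).1) 0
      rw [add_zero, add_zero, ← hδdef, ← hc0'] at h2
      have h3 := Ps_replicate_mono (W := W) hF c0 hκs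
      have h4 := Ps_replicate_four (W := W) hF c0 (2 ^ q)
      have h5 : 4 * 2 ^ q = 2 ^ (q + 2) := by
        rw [show (4 : ℕ) = 2 ^ 2 by norm_num, ← pow_add]
        congr 1
        omega
      rw [h5] at h4
      have h6 : ((Finset.univ : Finset (Fin m)).card : ℝ) * (4 ^ q * (w * δ)) ≤ m * E := by
        rw [Finset.card_univ, Fintype.card_fin]
        exact mul_le_mul_of_nonneg_left hE (by positivity)
      rw [abs_le] at h2 hone
      nlinarith

end Pool.Agent.Lib.MP_cdd7b4_an.MX.H87
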