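import Pool.Agent.Lib.MP_cdd7b4_an.MX.Iface

set_option autoImplicit false

/-! # ROUND: dyadic rounding -/

namespace Pool.Agent.Lib.MP_cdd7b4_an.MX.H87

open scoped BigOperators

theorem lpn_of_pos {m : ℕ} (r : ℝ) (b : Fin m → ℝ) (hb : ∀ l, 0 ≤ b l) :
    lpn (1 / r) b = (∑ l, b l ^ (1 / r)) ^ r := by
  unfold lpn
  rw [one_div_one_div]
  congr 1
  exact Finset.sum_congr rfl fun l _ => by rw [abs_of_nonneg (hb l)]

/-- The case of a zero vector. -/
theorem round_zero {m : ℕ} (hm : 1 ≤ m) (q : ℕ) (hq : 2 ≤ q) (hmq : m ≤ 2 ^ q) (r : ℝ)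
    (b : Fin m → ℝ) (hb : ∀ l, b l = 0) (hw : lpn (1 / r) b = 0) :
    (∃ κ : Fin m → ℕ, (∀ l, κ l ≤ q ∧
        b l ≤ lpn (1 / r) b * (2 : ℝ) ^ (-(r * κ l))) ∧ ∑ l, 2 ^ (q - κ l) ≤ 2 ^ (q + 2)) ∧
    ∃ (κ : Fin m → ℕ) (L : Finset (Fin m)), (∀ l ∈ L, κ l ≤ q ∧
        lpn (1 / r) b * (2 : ℝ) ^ (-(r * κ l)) ≤ b l) ∧
        2 ^ (q - 2) ≤ ∑ l ∈ L, 2 ^ (q - κ l) := by
  refine ⟨⟨fun _ => q, fun l => ⟨le_rfl, by rw [hw, hb]; simp⟩, ?_⟩,
    ⟨fun _ => 0, Finset.univ, fun l _ => ⟨Nat.zero_le _, by rw [hw, hb]; simp⟩, ?_⟩⟩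
  · simp only [Nat.sub_self, pow_zero, Finset.sum_const, Finset.card_univ, Fintype.card_fin,
      smul_eq_mul, mul_one]
    exact hmq.trans (Nat.pow_le_pow_right (by norm_num) (by omega))
  · simp only [Nat.sub_zero, Finset.sum_const, Finset.card_univ, Fintype.card_fin, smul_eq_mul]
    calc 2 ^ (q - 2) ≤ 2 ^ q := Nat.pow_le_pow_right (by norm_num) (by omega)
      _ ≤ m * 2 ^ q := Nat.le_mul_of_pos_left _ hm

/-- Rounding of a probability vector. -/
theorem round_prob {m : ℕ} (hm : 1 ≤ m) (q : ℕ) (hmq : m * 4 ≤ 2 ^ q) (P : Fin m → ℝ)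
    (hP : ∀ l, 0 ≤ P l) (hP1 : ∑ l, P l = 1) :
    (∃ κ : Fin m → ℕ, (∀ l, κ l ≤ q ∧ P l ≤ (1 / 2 : ℝ) ^ (κ l)) ∧
      ∑ l, 2 ^ (q - κ l) ≤ 2 ^ (q + 2)) ∧
    ∃ (κ : Fin m → ℕ) (L : Finset (Fin m)), (∀ l ∈ L, κ l ≤ q ∧ (1 / 2 : ℝ) ^ (κ l) ≤ P l) ∧
        2 ^ (q - 2) ≤ ∑ l ∈ L, 2 ^ (q - κ l) := by
  classical
  have hm0 : (0 : ℝ) < m := by exact_mod_cast hm
  have hq2 : 2 ≤ q := by
    by_contra h
    have : q = 0 ∨ q = 1 := by omega
    rcases this with h | h <;> subst h <;> norm_num at hmq <;> omega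
  have hPle : ∀ l, P l ≤ 1 := fun l => by
    rw [← hP1]; exact Finset.single_le_sum (fun i _ => hP i) (Finset.mem_univ l)
  have hhalf : ∀ κ : ℕ, κ ≤ q → ((2 : ℝ) ^ (q - κ)) = 2 ^ q * (1 / 2 : ℝ) ^ κ := by
    intro κ hκ
    have h2 : (2 : ℝ) ^ q = 2 ^ (q - κ) * 2 ^ κ := by rw [← pow_add]; congr 1; omega
    rw [h2, mul_assoc, ← mul_pow]; norm_num
  constructor
  · let κ : Fin m → ℕ := fun l => Nat.findGreatest (fun k => P l ≤ (1 / 2 : ℝ) ^ k) q
    have hκ1 : ∀ l, κ l ≤ q := fun l => Nat.findGreatest_le _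
    have hκ2 : ∀ l, P l ≤ (1 / 2 : ℝ) ^ (κ l) := fun l =>
      Nat.findGreatest_spec (P := fun k => P l ≤ (1 / 2 : ℝ) ^ k) (m := 0) (Nat.zero_le _)
        (by simpa using hPle l)
    refine ⟨κ, fun l => ⟨hκ1 l, hκ2 l⟩, ?_⟩
    have hone : ∀ l, ((2 : ℝ) ^ (q - κ l)) ≤ 2 * 2 ^ q * P l + 1 := by
      intro l
      rcases eq_or_lt_of_le (hκ1 l) with h | h
      · rw [h, Nat.sub_self, pow_zero]
        have := hP l
        have : 0 ≤ 2 * (2 : ℝ) ^ q * P l := by positivity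
        linarith
      · have hno : ¬ (P l ≤ (1 / 2 : ℝ) ^ (κ l + 1)) :=
          Nat.findGreatest_is_greatest (P := fun k => P l ≤ (1 / 2 : ℝ) ^ k) (n := q)
            (Nat.lt_succ_self _) h
        push Not at hno
        rw [hhalf _ (hκ1 l)]
        rw [pow_succ] at hno
        have hq0 : (0 : ℝ) < 2 ^ q := by positivity
        nlinarith
    have : ((∑ l, 2 ^ (q - κ l) : ℕ) : ℝ) ≤ ((2 ^ (q + 2) : ℕ) : ℝ) := by
      push_cast
      calc ∑ l, (2 : ℝ) ^ (q - κ l) ≤ ∑ l, (2 * 2 ^ q * P l + 1) :=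
            Finset.sum_le_sum fun l _ => hone l
        _ = 2 * 2 ^ q + m := by
            rw [Finset.sum_add_distrib, ← Finset.mul_sum, hP1]; simp
        _ ≤ 2 ^ (q + 2) := by
            have h1 : ((m * 4 : ℕ) : ℝ) ≤ ((2 ^ q : ℕ) : ℝ) := by exact_mod_cast hmq
            push_cast at h1
            rw [pow_add]
            nlinarith
    exact_mod_cast this
  · let L : Finset (Fin m) := Finset.univ.filter fun l => 1 / (2 * m) ≤ P l
    have hex : ∀ l, ∃ k : ℕ, (l ∈ L → (1 / 2 : ℝ) ^ k ≤ P l ∧ P l ≤ 2 * (1 / 2 : ℝ) ^ k ∧ k ≤ q) := by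
      intro l
      by_cases hl : l ∈ L
      · have hl' : 1 / (2 * (m : ℝ)) ≤ P l := (Finset.mem_filter.mp hl).2
        have hq : (1 / 2 : ℝ) ^ q ≤ P l := by
          refine le_trans ?_ hl'
          have h1 : ((m * 4 : ℕ) : ℝ) ≤ ((2 ^ q : ℕ) : ℝ) := by exact_mod_cast hmq
          push_cast at h1
          rw [one_div_pow]
          apply one_div_le_one_div_of_le (by positivity)
          nlinarith
        have hex : ∃ k : ℕ, (1 / 2 : ℝ) ^ k ≤ P l := ⟨q, hq⟩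
        refine ⟨Nat.find hex, fun _ => ⟨Nat.find_spec hex, ?_, Nat.find_min' hex hq⟩⟩
        rcases Nat.eq_zero_or_pos (Nat.find hex) with h0 | h0
        · rw [h0, pow_zero]; linarith [hPle l]
        · obtain ⟨k, hk⟩ := Nat.exists_eq_succ_of_ne_zero h0.ne'
          have hno := Nat.find_min hex (m := k) (by omega)
          push Not at hno
          rw [hk, pow_succ]; linarith
      · exact ⟨0, fun h => absurd h hl⟩
    choose κ hκ using hex
    refine ⟨κ, L, fun l hl => ⟨(hκ l hl).2.2, (hκ l hl).1⟩, ?_⟩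
    have hsum : (1 / 2 : ℝ) ≤ ∑ l ∈ L, P l := by
      have hsplit := Finset.sum_filter_add_sum_filter_not Finset.univ
        (fun l : Fin m => 1 / (2 * (m : ℝ)) ≤ P l) P
      have hnot : ∑ l ∈ Finset.univ.filter (fun l : Fin m => ¬ 1 / (2 * (m : ℝ)) ≤ P l), P l ≤
          1 / 2 := by
        calc ∑ l ∈ Finset.univ.filter (fun l : Fin m => ¬ 1 / (2 * (m : ℝ)) ≤ P l), P l
            ≤ ∑ l ∈ Finset.univ.filter (fun l : Fin m => ¬ 1 / (2 * (m : ℝ)) ≤ P l),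
                1 / (2 * (m : ℝ)) := Finset.sum_le_sum fun l hl => by
                  have := (Finset.mem_filter.mp hl).2
                  push Not at this
                  exact this.le
          _ ≤ ∑ l : Fin m, 1 / (2 * (m : ℝ)) :=
                Finset.sum_le_sum_of_subset_of_nonneg (Finset.filter_subset _ _)
                  fun _ _ _ => by positivity
          _ = 1 / 2 := by
                rw [Finset.sum_const, Finset.card_univ, Fintype.card_fin, nsmul_eq_mul]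
                field_simp
      rw [hP1] at hsplit
      have : ∑ l ∈ L, P l = ∑ l ∈ Finset.univ.filter (fun l : Fin m => 1 / (2 * (m : ℝ)) ≤ P l), P l :=
        rfl
      linarith
    have : ((2 ^ (q - 2) : ℕ) : ℝ) ≤ ((∑ l ∈ L, 2 ^ (q - κ l) : ℕ) : ℝ) := by
      push_cast
      rw [hhalf 2 hq2]
      have h3 : ∀ l ∈ L, (2 : ℝ) ^ q * (1 / 2 * P l) ≤ 2 ^ (q - κ l) := by
        intro l hl
        rw [hhalf _ (hκ l hl).2.2]
        have := (hκ l hl).2.1
        apply mul_le_mul_of_nonneg_left _ (by positivity)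
        linarith
      calc (2 : ℝ) ^ q * (1 / 2) ^ 2 ≤ ∑ l ∈ L, (2 : ℝ) ^ q * (1 / 2 * P l) := by
            rw [← Finset.mul_sum, ← Finset.mul_sum]
            apply mul_le_mul_of_nonneg_left _ (by positivity)
            linarith
        _ ≤ ∑ l ∈ L, (2 : ℝ) ^ (q - κ l) := Finset.sum_le_sum h3
    exact_mod_cast this

theorem pow_conv (r : ℝ) (k : ℕ) : ((1 / 2 : ℝ) ^ k) ^ r = (2 : ℝ) ^ (-(r * k)) := by
  rw [one_div, inv_pow, ← Real.rpow_natCast, ← Real.rpow_neg (by norm_num),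
    ← Real.rpow_mul (by norm_num)]
  congr 1
  ring

theorem round : RoundStatement := by
  intro m hm
  refine ⟨Nat.clog 2 m + 2, by omega, ?_⟩
  set q := Nat.clog 2 m + 2 with hq
  have hmq : m * 4 ≤ 2 ^ q := by
    have := Nat.le_pow_clog (b := 2) (by norm_num) m
    rw [hq, pow_add]
    omega
  intro r hr _ b hb
  have hS0 : 0 ≤ ∑ l, b l ^ (1 / r) := Finset.sum_nonneg fun l _ => Real.rpow_nonneg (hb l) _
  rcases hS0.eq_or_lt with hS | hS
  · have hb0 : ∀ l, b l = 0 := by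
      intro l
      have h1 := (Finset.sum_eq_zero_iff_of_nonneg
        (fun l _ => Real.rpow_nonneg (hb l) (1 / r))).mp hS.symm l (Finset.mem_univ l)
      by_contra hne
      have : 0 < b l ^ (1 / r) := Real.rpow_pos_of_pos (lt_of_le_of_ne (hb l) (Ne.symm hne)) _
      linarith
    refine round_zero hm q (by omega) (by omega) r b hb0 ?_
    rw [lpn_of_pos r b hb, ← hS, Real.zero_rpow hr.ne']
  · set Sm := ∑ l, b l ^ (1 / r) with hSm
    have hw : lpn (1 / r) b = Sm ^ r := lpn_of_pos r b hb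
    have hw0 : 0 < Sm ^ r := Real.rpow_pos_of_pos hS r
    have hbP : ∀ l, b l = Sm ^ r * (b l ^ (1 / r) / Sm) ^ r := by
      intro l
      rw [Real.div_rpow (Real.rpow_nonneg (hb l) _) hS.le, ← Real.rpow_mul (hb l),
        one_div_mul_cancel hr.ne', Real.rpow_one]
      field_simp
    obtain ⟨⟨κ, hκ, hκs⟩, κ', L, hL, hLs⟩ := round_prob hm q hmq (fun l => b l ^ (1 / r) / Sm)
      (fun l => div_nonneg (Real.rpow_nonneg (hb l) _) hS.le)
      (by rw [← Finset.sum_div, ← hSm, div_self hS.ne'])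
    have hnn : ∀ l, 0 ≤ b l ^ (1 / r) / Sm := fun l =>
      div_nonneg (Real.rpow_nonneg (hb l) _) hS.le
    refine ⟨⟨κ, fun l => ⟨(hκ l).1, ?_⟩, hκs⟩, κ', L, fun l hl => ⟨(hL l hl).1, ?_⟩, hLs⟩
    · rw [hw]
      nth_rewrite 1 [hbP l]
      rw [← pow_conv]
      exact mul_le_mul_of_nonneg_left (Real.rpow_le_rpow (hnn l) (hκ l).2 hr.le) hw0.le
    · rw [hw]
      nth_rewrite 1 [hbP l]
      rw [← pow_conv]
      exact mul_le_mul_of_nonneg_left (Real.rpow_le_rpow (by positivity) (hL l hl).2 hr.le) hw0.le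

end Pool.Agent.Lib.MP_cdd7b4_an.MX.H87
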