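import Pool.Agent.Lib.MP_cdd7b4_an.MX.Iface

set_option autoImplicit false

/-! # LT: copies of a vector in a symmetric norm -/

namespace Pool.Agent.Lib.MP_cdd7b4_an.MX.H87

open scoped BigOperators

variable {F : (ℕ →₀ ℝ) → ℝ}

theorem F_zero (hF : SymF F) : F 0 = 0 := by
  have := hF.smul 0 0
  simpa using this

theorem F_nonneg (hF : SymF F) (u : ℕ →₀ ℝ) : 0 ≤ F u := by
  have := hF.mono 0 u (fun i => by simp)
  rwa [F_zero hF] at this

/-- The norm does not depend on the placement. -/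
theorem F_place (hF : SymF F) {α : Type} (e e' : α ↪ ℕ) (u : α →₀ ℝ) :
    F (u.embDomain e) = F (u.embDomain e') := by
  classical
  let f : ℕ → ℕ := fun n => if h : ∃ a, e a = n then 2 * e' h.choose else 2 * n + 1
  have hf : ∀ a, f (e a) = 2 * e' a := by
    intro a
    have h : ∃ a', e a' = e a := ⟨a, rfl⟩
    simp only [f, dif_pos h]
    rw [e.injective h.choose_spec]
  have hinj : Function.Injective f := by
    intro n n' h
    by_cases h1 : ∃ a, e a = n <;> by_cases h2 : ∃ a, e a = n'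
    · obtain ⟨a, rfl⟩ := h1
      obtain ⟨a', rfl⟩ := h2
      rw [hf, hf] at h
      have : e' a = e' a' := by omega
      rw [e'.injective this]
    · obtain ⟨a, rfl⟩ := h1
      rw [hf] at h
      simp only [f, dif_neg h2] at h
      omega
    · obtain ⟨a, rfl⟩ := h2
      rw [hf] at h
      simp only [f, dif_neg h1] at h
      omega
    · simp only [f, dif_neg h1, dif_neg h2] at h
      omega
  let g : ℕ ↪ ℕ := ⟨fun n => 2 * n, fun a b h => by simpa using h⟩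
  have h1 : (u.embDomain e).embDomain ⟨f, hinj⟩ = (u.embDomain e').embDomain g := by
    rw [Finsupp.embDomain_eq_mapDomain, Finsupp.embDomain_eq_mapDomain,
      Finsupp.embDomain_eq_mapDomain, Finsupp.embDomain_eq_mapDomain, ← Finsupp.mapDomain_comp,
      ← Finsupp.mapDomain_comp]
    congr 1
    funext a
    exact hf a
  rw [← hF.emb ⟨f, hinj⟩ (u.embDomain e), h1, hF.emb]

/-- The norm of a finitely supported function on a countable type. -/
noncomputable def GG (F : (ℕ →₀ ℝ) → ℝ) {α : Type} [Countable α] (u : α →₀ ℝ) : ℝ :=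
  F (u.embDomain (nonempty_embedding_nat α).some)

theorem GG_eq (hF : SymF F) {α : Type} [Countable α] (e : α ↪ ℕ) (u : α →₀ ℝ) :
    F (u.embDomain e) = GG F u := F_place hF _ _ _

theorem GG_emb (hF : SymF F) {α β : Type} [Countable α] [Countable β] (f : α ↪ β)
    (u : α →₀ ℝ) : GG F (u.embDomain f) = GG F u := by
  unfold GG
  have h : (u.embDomain f).embDomain (nonempty_embedding_nat β).some =
      u.embDomain (f.trans (nonempty_embedding_nat β).some) := by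
    rw [Finsupp.embDomain_eq_mapDomain, Finsupp.embDomain_eq_mapDomain,
      Finsupp.embDomain_eq_mapDomain, ← Finsupp.mapDomain_comp]
    rfl
  rw [h]
  exact F_place hF _ _ _

theorem GG_add (hF : SymF F) {α : Type} [Countable α] (u v : α →₀ ℝ) :
    GG F (u + v) ≤ GG F u + GG F v := by
  unfold GG
  rw [Finsupp.embDomain_add]
  exact hF.add _ _

theorem GG_smul (hF : SymF F) {α : Type} [Countable α] (c : ℝ) (u : α →₀ ℝ) :
    GG F (c • u) = |c| * GG F u := by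
  unfold GG
  rw [← hF.smul]
  congr 1
  rw [Finsupp.embDomain_eq_mapDomain, Finsupp.embDomain_eq_mapDomain, Finsupp.mapDomain_smul]

theorem GG_mono (hF : SymF F) {α : Type} [Countable α] (u v : α →₀ ℝ)
    (h : ∀ a, |u a| ≤ |v a|) : GG F u ≤ GG F v := by
  apply hF.mono
  intro n
  by_cases hn : n ∈ Set.range ((nonempty_embedding_nat α).some : α ↪ ℕ)
  · obtain ⟨a, rfl⟩ := hn
    rw [Finsupp.embDomain_apply_self, Finsupp.embDomain_apply_self]
    exact h a
  · rw [Finsupp.embDomain_of_notMem_range _ _ _ hn, Finsupp.embDomain_of_notMem_range _ _ _ hn]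

theorem GG_nonneg (hF : SymF F) {α : Type} [Countable α] (u : α →₀ ℝ) : 0 ≤ GG F u :=
  F_nonneg hF _

/-- `(i, n) ↦ a_i W_n`. -/
noncomputable def tv {ι : Type} [Fintype ι] (a : ι → ℝ) (W : ℕ →₀ ℝ) : ι × ℕ →₀ ℝ :=
  Finsupp.onFinset (Finset.univ ×ˢ W.support) (fun z => a z.1 * W z.2) (by
    intro z hz
    rw [Finset.mem_product]
    exact ⟨Finset.mem_univ _, Finsupp.mem_support_iff.mpr fun h => hz (by rw [h, mul_zero])⟩)

@[simp] theorem tv_apply {ι : Type} [Fintype ι] (a : ι → ℝ) (W : ℕ →₀ ℝ) (i : ι) (n : ℕ) :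
    tv a W (i, n) = a i * W n := rfl

/-- The norm of the sum of disjoint copies of `W` with coefficients `a`. -/
noncomputable def NN (F : (ℕ →₀ ℝ) → ℝ) (W : ℕ →₀ ℝ) {ι : Type} [Fintype ι] (a : ι → ℝ) : ℝ :=
  GG F (tv a W)

variable {W : ℕ →₀ ℝ}

theorem NN_congr (hF : SymF F) {ι κ : Type} [Fintype ι] [Fintype κ] (σ : ι ≃ κ) (a : κ → ℝ) :
    NN F W (a ∘ σ) = NN F W a := by
  unfold NN
  rw [← GG_emb hF (Equiv.prodCongr σ (Equiv.refl ℕ)).toEmbedding (tv (a ∘ σ) W)]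
  congr 1
  ext ⟨k, n⟩
  obtain ⟨i, rfl⟩ := σ.surjective k
  have : ((σ i, n) : κ × ℕ) = (Equiv.prodCongr σ (Equiv.refl ℕ)).toEmbedding (i, n) := rfl
  rw [this, Finsupp.embDomain_apply_self]
  rfl

theorem NN_mono (hF : SymF F) {ι : Type} [Fintype ι] (a b : ι → ℝ) (h : ∀ i, |a i| ≤ |b i|) :
    NN F W a ≤ NN F W b := by
  apply GG_mono hF
  rintro ⟨i, n⟩
  rw [tv_apply, tv_apply, abs_mul, abs_mul]
  exact mul_le_mul_of_nonneg_right (h i) (abs_nonneg _)

/-- The embeddings of the two parts. -/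
def eL (ι κ : Type) : ι × ℕ ↪ (ι ⊕ κ) × ℕ :=
  ⟨fun z => (Sum.inl z.1, z.2), fun a b h => by
    simp only [Prod.mk.injEq, Sum.inl.injEq] at h
    exact Prod.ext h.1 h.2⟩

/-- The embeddings of the two parts. -/
def eR (ι κ : Type) : κ × ℕ ↪ (ι ⊕ κ) × ℕ :=
  ⟨fun z => (Sum.inr z.1, z.2), fun a b h => by
    simp only [Prod.mk.injEq, Sum.inr.injEq] at h
    exact Prod.ext h.1 h.2⟩

theorem emb_eL {ι κ : Type} (u : ι × ℕ →₀ ℝ) (i : ι) (n : ℕ) :
    u.embDomain (eL ι κ) (Sum.inl i, n) = u (i, n) :=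
  Finsupp.embDomain_apply_self (eL ι κ) u (i, n)

theorem emb_eL' {ι κ : Type} (u : ι × ℕ →₀ ℝ) (k : κ) (n : ℕ) :
    u.embDomain (eL ι κ) (Sum.inr k, n) = 0 := by
  apply Finsupp.embDomain_of_notMem_range
  rintro ⟨z, hz⟩
  exact absurd (show (Sum.inl z.1 : ι ⊕ κ) = Sum.inr k from congrArg Prod.fst hz) Sum.inl_ne_inr

theorem emb_eR {ι κ : Type} (u : κ × ℕ →₀ ℝ) (k : κ) (n : ℕ) :
    u.embDomain (eR ι κ) (Sum.inr k, n) = u (k, n) :=
  Finsupp.embDomain_apply_self (eR ι κ) u (k, n)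

theorem emb_eR' {ι κ : Type} (u : κ × ℕ →₀ ℝ) (i : ι) (n : ℕ) :
    u.embDomain (eR ι κ) (Sum.inl i, n) = 0 := by
  apply Finsupp.embDomain_of_notMem_range
  rintro ⟨z, hz⟩
  exact absurd (show (Sum.inr z.1 : ι ⊕ κ) = Sum.inl i from congrArg Prod.fst hz) Sum.inr_ne_inl

theorem NN_le_sum (hF : SymF F) {ι κ : Type} [Fintype ι] [Fintype κ] (a : ι → ℝ) (b : κ → ℝ) :
    NN F W a ≤ NN F W (Sum.elim a b) := by
  unfold NN
  rw [← GG_emb hF (eL ι κ) (tv a W)]
  apply GG_mono hF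
  rintro ⟨i | k, n⟩
  · rw [emb_eL]; rfl
  · rw [emb_eL', abs_zero]; exact abs_nonneg _

theorem NN_sum_le (hF : SymF F) {ι κ : Type} [Fintype ι] [Fintype κ] (a : ι → ℝ) (b : κ → ℝ) :
    NN F W (Sum.elim a b) ≤ NN F W a + NN F W b := by
  unfold NN
  rw [← GG_emb hF (eL ι κ) (tv a W), ← GG_emb hF (eR ι κ) (tv b W)]
  refine le_trans (le_of_eq ?_) (GG_add hF _ _)
  congr 1
  ext ⟨i | k, n⟩
  · rw [Finsupp.add_apply, emb_eL, emb_eR', add_zero]; rfl
  · rw [Finsupp.add_apply, emb_eL', emb_eR, zero_add]; rfl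

theorem NN_smul (hF : SymF F) {ι : Type} [Fintype ι] (c : ℝ) (a : ι → ℝ) :
    NN F W (fun i => c * a i) = |c| * NN F W a := by
  unfold NN
  rw [← GG_smul hF]
  congr 1
  ext ⟨i, n⟩
  rw [Finsupp.smul_apply, tv_apply, tv_apply, smul_eq_mul, mul_assoc]

theorem NN_nonneg (hF : SymF F) {ι : Type} [Fintype ι] (a : ι → ℝ) : 0 ≤ NN F W a :=
  GG_nonneg hF _

theorem NN_cop (hF : SymF F) {m : ℕ} (b : Fin m → ℝ) : F (cop b W) = NN F W b := by
  have hinj : Function.Injective fun z : Fin m × ℕ => em z.1 z.2 := by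
    rintro ⟨j, n⟩ ⟨j', n'⟩ h0
    have h : m * n + (j : ℕ) = m * n' + (j' : ℕ) := h0
    have h1 : (j : ℕ) = j' := by
      have := congrArg (fun x => x % m) h
      simpa [Nat.mul_add_mod, Nat.mod_eq_of_lt j.2, Nat.mod_eq_of_lt j'.2] using this
    have hm : 0 < m := j.pos
    have h2 : n = n' := by
      rw [h1] at h
      exact Nat.eq_of_mul_eq_mul_left hm (by omega)
    rw [Prod.mk.injEq]
    exact ⟨Fin.ext h1, h2⟩
  unfold NN
  rw [← GG_eq hF ⟨_, hinj⟩]
  congr 1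
  unfold cop
  ext x
  rw [Finsupp.finsetSum_apply]
  by_cases hx : ∃ z : Fin m × ℕ, em z.1 z.2 = x
  · obtain ⟨⟨j, n⟩, rfl⟩ := hx
    have h1 := Finsupp.embDomain_apply_self (⟨_, hinj⟩ : Fin m × ℕ ↪ ℕ) (tv b W) (j, n)
    simp only [Function.Embedding.coeFn_mk] at h1
    rw [h1, tv_apply]
    rw [Finset.sum_eq_single j]
    · rw [Finsupp.smul_apply, Finsupp.embDomain_apply_self, smul_eq_mul]
    · intro j' _ hj'
      rw [Finsupp.smul_apply, Finsupp.embDomain_of_notMem_range, smul_zero]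
      rintro ⟨n', hn'⟩
      exact hj' (congrArg Prod.fst (hinj (a₁ := (j', n')) (a₂ := (j, n)) hn'))
    · intro h
      exact absurd (Finset.mem_univ _) h
  · rw [Finsupp.embDomain_of_notMem_range]
    · apply Finset.sum_eq_zero
      intro j _
      rw [Finsupp.smul_apply, Finsupp.embDomain_of_notMem_range, smul_zero]
      rintro ⟨n', hn'⟩
      exact hx ⟨(j, n'), hn'⟩
    · rintro ⟨z, hz⟩
      exact hx ⟨z, hz⟩

theorem NN_one (hF : SymF F) (c : ℝ) : NN F W (fun _ : Unit => c) = |c| * F W := by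
  let e : ℕ ↪ Unit × ℕ := ⟨fun n => ((), n), fun a b h => by simpa using h⟩
  have h1 : tv (fun _ : Unit => c) W = c • W.embDomain e := by
    ext ⟨⟨⟩, n⟩
    have : (((), n) : Unit × ℕ) = e n := rfl
    rw [tv_apply, Finsupp.smul_apply, this, Finsupp.embDomain_apply_self, smul_eq_mul]
  unfold NN
  rw [h1, GG_smul hF, GG_emb hF]
  congr 1
  rw [← GG_eq hF (Function.Embedding.refl ℕ) W, Finsupp.embDomain_refl]
  rfl

theorem GG_nat (hF : SymF F) (u : ℕ →₀ ℝ) : GG F u = F u := by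
  rw [← GG_eq hF (Function.Embedding.refl ℕ) u, Finsupp.embDomain_refl]
  rfl

theorem NN_cop_aux (W : ℕ →₀ ℝ) (n : ℕ) (j : Fin 2) : dil W (2 * n + j) = W n := by
  unfold dil cop
  rw [Finsupp.finsetSum_apply, Finset.sum_eq_single j]
  · have h := Finsupp.embDomain_apply_self (em j) W n
    have h2 : em j n = 2 * n + (j : ℕ) := rfl
    rw [h2] at h
    rw [Finsupp.smul_apply, h, one_smul]
  · intro j' _ hj'
    rw [Finsupp.smul_apply, Finsupp.embDomain_of_notMem_range, smul_zero]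
    rintro ⟨n', hn'⟩
    have h2 : em j' n' = 2 * n' + (j' : ℕ) := rfl
    rw [h2] at hn'
    exact hj' (Fin.ext (by have := j.2; have := j'.2; omega))
  · intro h
    exact absurd (Finset.mem_univ _) h

/-- Doubling of one slot. -/
theorem NN_double (hF : SymF F) (r : ℝ) {κ : Type} [Fintype κ] (c : ℝ) (y : κ → ℝ) :
    |NN F W (Sum.elim (fun _ : Unit => (2 : ℝ) ^ r * c) y) -
      NN F W (Sum.elim (fun _ : Fin 2 => c) y)| ≤ |c| * F (dil W - (2 : ℝ) ^ r • W) := by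
  -- the vector with `c • dil W` in the first slot
  let e0 : ℕ ↪ (Unit ⊕ κ) × ℕ := ⟨fun n => (Sum.inl (), n), fun a b h => by simpa using h⟩
  have he0 : ∀ (u : ℕ →₀ ℝ) (v : Unit) (n : ℕ), u.embDomain e0 (Sum.inl v, n) = u n :=
    fun u _ n => Finsupp.embDomain_apply_self e0 u n
  have he0' : ∀ (u : ℕ →₀ ℝ) (k : κ) (n : ℕ), u.embDomain e0 (Sum.inr k, n) = 0 := by
    intro u k n
    apply Finsupp.embDomain_of_notMem_range
    rintro ⟨z, hz⟩
    exact absurd (show (Sum.inl () : Unit ⊕ κ) = Sum.inr k from congrArg Prod.fst hz)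
      Sum.inl_ne_inr
  set V : (Unit ⊕ κ) × ℕ →₀ ℝ := (c • dil W).embDomain e0 + (tv y W).embDomain (eR Unit κ) with hV
  set V1 : (Unit ⊕ κ) × ℕ →₀ ℝ := tv (Sum.elim (fun _ : Unit => (2 : ℝ) ^ r * c) y) W with hV1
  have hdiff : V1 = V + (-c) • (dil W - (2 : ℝ) ^ r • W).embDomain e0 := by
    ext ⟨⟨⟩ | k, n⟩
    · simp only [hV, hV1, Finsupp.add_apply, Finsupp.smul_apply, he0, emb_eR', tv_apply,
        Sum.elim_inl, Finsupp.sub_apply, smul_eq_mul]
      ring
    · simp only [hV, hV1, Finsupp.add_apply, Finsupp.smul_apply, he0', emb_eR, tv_apply,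
        Sum.elim_inr, smul_eq_mul]
      ring
  have hdiff' : V = V1 + c • (dil W - (2 : ℝ) ^ r • W).embDomain e0 := by
    rw [hdiff, add_assoc, ← add_smul]
    simp
  -- `V` is a placement of the copies
  let g : (Fin 2 ⊕ κ) × ℕ → (Unit ⊕ κ) × ℕ := fun z =>
    match z with
    | (Sum.inl j, n) => (Sum.inl (), 2 * n + j)
    | (Sum.inr k, n) => (Sum.inr k, n)
  have hg : Function.Injective g := by
    rintro ⟨j | k, n⟩ ⟨j' | k', n'⟩ h
    · simp only [g, Prod.mk.injEq, true_and] at h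
      have h1 : j = j' := Fin.ext (by have := j.2; have := j'.2; omega)
      have h2 : n = n' := by rw [h1] at h; omega
      rw [h1, h2]
    · simp [g] at h
    · simp [g] at h
    · simpa [g] using h
  have hVg : V = (tv (Sum.elim (fun _ : Fin 2 => c) y) W).embDomain ⟨g, hg⟩ := by
    ext ⟨⟨⟩ | k, n⟩
    · rw [hV, Finsupp.add_apply, he0, emb_eR', add_zero]
      have h1 : ((Sum.inl (), n) : (Unit ⊕ κ) × ℕ) =
          (⟨g, hg⟩ : (Fin 2 ⊕ κ) × ℕ ↪ (Unit ⊕ κ) × ℕ)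
            (Sum.inl ⟨n % 2, Nat.mod_lt _ (by norm_num)⟩, n / 2) := by
        show ((Sum.inl (), n) : (Unit ⊕ κ) × ℕ) = (Sum.inl (), 2 * (n / 2) + n % 2)
        rw [Nat.div_add_mod]
      have h3 := Finsupp.embDomain_apply_self (⟨g, hg⟩ : (Fin 2 ⊕ κ) × ℕ ↪ (Unit ⊕ κ) × ℕ)
        (tv (Sum.elim (fun _ : Fin 2 => c) y) W)
        (Sum.inl ⟨n % 2, Nat.mod_lt _ (by norm_num)⟩, n / 2)
      rw [← h1] at h3
      refine Eq.trans ?_ h3.symm
      rw [tv_apply, Sum.elim_inl, Finsupp.smul_apply, smul_eq_mul]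
      congr 1
      have h2 : dil W (2 * (n / 2) + n % 2) = W (n / 2) := by
        have hz := NN_cop_aux W (n / 2) ⟨n % 2, Nat.mod_lt _ (by norm_num)⟩
        exact hz
      rw [show 2 * (n / 2) + n % 2 = n by omega] at h2
      exact h2
    · rw [hV, Finsupp.add_apply, he0', emb_eR, zero_add]
      have h1 : ((Sum.inr k, n) : (Unit ⊕ κ) × ℕ) =
          (⟨g, hg⟩ : (Fin 2 ⊕ κ) × ℕ ↪ (Unit ⊕ κ) × ℕ) (Sum.inr k, n) := rfl
      rw [h1, Finsupp.embDomain_apply_self, tv_apply, tv_apply, Sum.elim_inr]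
  have h1 : NN F W (Sum.elim (fun _ : Fin 2 => c) y) = GG F V := by
    rw [hVg, GG_emb hF]
    rfl
  have h2 : NN F W (Sum.elim (fun _ : Unit => (2 : ℝ) ^ r * c) y) = GG F V1 := rfl
  have h3 : GG F V1 ≤ GG F V + |c| * F (dil W - (2 : ℝ) ^ r • W) := by
    rw [hdiff]
    refine (GG_add hF _ _).trans ?_
    rw [GG_smul hF, GG_emb hF, GG_nat hF, abs_neg]
  have h4 : GG F V ≤ GG F V1 + |c| * F (dil W - (2 : ℝ) ^ r • W) := by
    rw [hdiff']
    refine (GG_add hF _ _).trans ?_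
    rw [GG_smul hF, GG_emb hF, GG_nat hF]
  rw [h1, h2, abs_le]
  constructor <;> linarith

end Pool.Agent.Lib.MP_cdd7b4_an.MX.H87
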